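import Pool.Agent.Y746.OJ.Stm

set_option autoImplicit false

/-!
Project OJ: the size of the Fourier transform of a kernel at `log n` (shift of the line of
integration to `Im v = -1`). The lemmas on the shift are copied from `Helper242/KK/ShiftLine.lean`.
-/

namespace Pool.Agent.Y445.OJ

open Complex MeasureTheory Filter Topology
open Pool.Agent.Y746.OJ

theorem shift_line_integrable {H : ℂ → ℂ} {a b K δ : ℝ} (hδ : 0 < δ)
    (hd : ∀ z : ℂ, z.im ∈ Set.uIcc a b → DifferentiableAt ℂ H z)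
    (hb : ∀ z : ℂ, z.im ∈ Set.uIcc a b → ‖H z‖ ≤ K * Real.exp (-δ * z.re ^ 2)) {c : ℝ}
    (hc : c ∈ Set.uIcc a b) : Integrable (fun t : ℝ => H (t + c * I)) := by
  have him : ∀ t : ℝ, ((t : ℂ) + c * I).im = c := by
    intro t
    simp
  have hre : ∀ t : ℝ, ((t : ℂ) + c * I).re = t := by
    intro t
    simp
  have hcont : Continuous (fun t : ℝ => H (t + c * I)) := by
    rw [continuous_iff_continuousAt]
    intro t
    have h1 : ContinuousAt H ((t : ℂ) + c * I) := by
      apply (hd _ _).continuousAt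
      rw [him]
      exact hc
    have h2 : ContinuousAt (fun t : ℝ => (t : ℂ) + c * I) t := by fun_prop
    exact ContinuousAt.comp (g := H) (f := fun t : ℝ => (t : ℂ) + c * I) h1 h2
  refine Integrable.mono' ((integrable_exp_neg_mul_sq hδ).const_mul K)
    hcont.aestronglyMeasurable (Eventually.of_forall fun t => ?_)
  have h3 := hb ((t : ℂ) + c * I) (by rw [him]; exact hc)
  rw [hre] at h3
  exact h3

theorem shift_line_vert {H : ℂ → ℂ} {a b K δ : ℝ}
    (hb : ∀ z : ℂ, z.im ∈ Set.uIcc a b → ‖H z‖ ≤ K * Real.exp (-δ * z.re ^ 2)) (T : ℝ) :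
    ‖∫ y in a..b, H (T + y * I)‖ ≤ K * Real.exp (-δ * T ^ 2) * |b - a| := by
  apply intervalIntegral.norm_integral_le_of_norm_le_const
  intro y hy
  have h1 : ((T : ℂ) + y * I).im = y := by simp
  have h2 : ((T : ℂ) + y * I).re = T := by simp
  have h3 := hb ((T : ℂ) + y * I) (by rw [h1]; exact Set.uIoc_subset_uIcc hy)
  rw [h2] at h3
  exact h3

/-- Shift of a horizontal line of integration. -/
theorem shift_line {H : ℂ → ℂ} {a b K δ : ℝ} (hδ : 0 < δ)
    (hd : ∀ z : ℂ, z.im ∈ Set.uIcc a b → DifferentiableAt ℂ H z)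
    (hb : ∀ z : ℂ, z.im ∈ Set.uIcc a b → ‖H z‖ ≤ K * Real.exp (-δ * z.re ^ 2)) :
    ∫ t : ℝ, H (t + a * I) = ∫ t : ℝ, H (t + b * I) := by
  have hrect : ∀ T : ℝ, (∫ x in (-T)..T, H (x + a * I)) - (∫ x in (-T)..T, H (x + b * I)) +
      I • (∫ y in a..b, H (T + y * I)) - I • (∫ y in a..b, H (((-T : ℝ) : ℂ) + y * I)) = 0 := by
    intro T
    have h1 := Complex.integral_boundary_rect_eq_zero_of_differentiableOn H
      (((-T : ℝ) : ℂ) + a * I) ((T : ℂ) + b * I) (by
        intro z hz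
        apply (hd z _).differentiableWithinAt
        have h2 := hz.2
        simpa using h2)
    simpa using h1
  have hA : Tendsto (fun T : ℝ => ∫ x in (-T)..T, H (x + a * I)) atTop
      (𝓝 (∫ t : ℝ, H (t + a * I))) :=
    intervalIntegral_tendsto_integral (shift_line_integrable hδ hd hb Set.left_mem_uIcc)
      tendsto_neg_atTop_atBot tendsto_id
  have hB : Tendsto (fun T : ℝ => ∫ x in (-T)..T, H (x + b * I)) atTop
      (𝓝 (∫ t : ℝ, H (t + b * I))) :=
    intervalIntegral_tendsto_integral (shift_line_integrable hδ hd hb Set.right_mem_uIcc)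
      tendsto_neg_atTop_atBot tendsto_id
  have hE : Tendsto (fun T : ℝ => K * Real.exp (-δ * T ^ 2) * |b - a|) atTop (𝓝 0) := by
    have h1 : Tendsto (fun T : ℝ => -δ * T ^ 2) atTop atBot :=
      (tendsto_pow_atTop two_ne_zero).const_mul_atTop_of_neg (by linarith)
    have h2 := Real.tendsto_exp_atBot.comp h1
    have h3 := (h2.const_mul K).mul_const |b - a|
    simpa using h3
  have hV1 : Tendsto (fun T : ℝ => I • (∫ y in a..b, H (T + y * I))) atTop (𝓝 0) := by
    apply squeeze_zero_norm (fun T => ?_) hE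
    rw [norm_smul, norm_I, one_mul]
    exact shift_line_vert hb T
  have hV2 : Tendsto (fun T : ℝ => I • (∫ y in a..b, H (((-T : ℝ) : ℂ) + y * I))) atTop (𝓝 0) := by
    apply squeeze_zero_norm (fun T => ?_) hE
    rw [norm_smul, norm_I, one_mul]
    have h1 := shift_line_vert hb (-T)
    rw [neg_sq] at h1
    exact h1
  have hlim := ((hA.sub hB).add hV1).sub hV2
  simp only [hrect] at hlim
  have h0 := tendsto_nhds_unique hlim tendsto_const_nhds
  rw [add_zero, sub_zero] at h0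
  exact sub_eq_zero.1 h0

theorem t_VH : ∀ V M0 M, KerOK V M0 M → ∀ n : ℕ, 1 ≤ n →
    ‖VH V (Real.log n)‖ ≤ 4 * M / n := by
  intro V M0 M hV n hn
  obtain ⟨hd, -, -, hb⟩ := hV
  have hn1 : (1 : ℝ) ≤ (n : ℝ) := by exact_mod_cast hn
  have hn0 : (0 : ℝ) < (n : ℝ) := by linarith
  have hξ : 0 ≤ Real.log n := Real.log_nonneg hn1
  set ξ := Real.log n with hxi
  have hM : 0 ≤ M := by
    have h1 := hb 0 (by simp)
    simp only [zero_re, ne_eq, OfNat.ofNat_ne_zero, not_false_eq_true, zero_pow, neg_zero,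
      zero_div, Real.exp_zero, mul_one] at h1
    exact (norm_nonneg _).trans h1
  set H : ℂ → ℂ := fun z => V z * Complex.exp (-(ξ : ℂ) * z * I) with hH
  have hre : ∀ z : ℂ, (-(ξ : ℂ) * z * I).re = ξ * z.im := by
    intro z
    simp
  have hnorm : ∀ z : ℂ, |z.im| ≤ 1 → ‖H z‖ ≤ M * Real.exp (-(1 / 4) * z.re ^ 2) *
      Real.exp (ξ * z.im) := by
    intro z hz
    rw [hH]
    simp only
    rw [norm_mul, Complex.norm_exp, hre]
    refine mul_le_mul_of_nonneg_right ?_ (Real.exp_pos _).le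
    refine (hb z hz).trans (le_of_eq ?_)
    congr 2
    ring
  have habs : ∀ z : ℂ, z.im ∈ Set.uIcc (0 : ℝ) (-1) → z.im ≤ 0 ∧ |z.im| ≤ 1 := by
    intro z hz
    rw [Set.uIcc_of_ge (by norm_num)] at hz
    refine ⟨hz.2, ?_⟩
    rw [abs_le]
    exact ⟨hz.1, by linarith [hz.2]⟩
  have hbd : ∀ z : ℂ, z.im ∈ Set.uIcc (0 : ℝ) (-1) →
      ‖H z‖ ≤ M * Real.exp (-(1 / 4) * z.re ^ 2) := by
    intro z hz
    obtain ⟨h1, h2⟩ := habs z hz
    refine (hnorm z h2).trans ?_
    have h3 : Real.exp (ξ * z.im) ≤ 1 := by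
      rw [Real.exp_le_one_iff]
      exact mul_nonpos_of_nonneg_of_nonpos hξ h1
    exact mul_le_of_le_one_right (by positivity) h3
  have hdiff : ∀ z : ℂ, z.im ∈ Set.uIcc (0 : ℝ) (-1) → DifferentiableAt ℂ H z := by
    intro z _
    rw [hH]
    have h1 := hd z
    fun_prop
  have hsh := shift_line (H := H) (a := 0) (b := -1) (K := M) (δ := 1 / 4) (by norm_num) hdiff hbd
  have e1 : VH V ξ = ∫ t : ℝ, H (t + ((-1 : ℝ) : ℂ) * I) := by
    rw [← hsh]
    unfold VH
    refine integral_congr_ae (Eventually.of_forall fun t => ?_)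
    simp [hH]
  rw [e1]
  have e2 : ∀ t : ℝ, ‖H (t + ((-1 : ℝ) : ℂ) * I)‖ ≤
      (M / n) * Real.exp (-(1 / 4) * t ^ 2) := by
    intro t
    have h1 : ((t : ℂ) + ((-1 : ℝ) : ℂ) * I).im = -1 := by simp
    have h2 : ((t : ℂ) + ((-1 : ℝ) : ℂ) * I).re = t := by simp
    have h3 := hnorm ((t : ℂ) + ((-1 : ℝ) : ℂ) * I) (by rw [h1]; norm_num)
    rw [h1, h2] at h3
    refine h3.trans (le_of_eq ?_)
    have h4 : Real.exp (ξ * -1) = 1 / n := by
      rw [mul_neg, mul_one, Real.exp_neg, hxi, Real.exp_log hn0, one_div]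
    rw [h4]
    ring
  have e3 : ∫ t : ℝ, (M / n) * Real.exp (-(1 / 4) * t ^ 2) = (M / n) * Real.sqrt (Real.pi / (1 / 4)) := by
    rw [integral_const_mul, integral_gaussian]
  refine (norm_integral_le_of_norm_le
    ((integrable_exp_neg_mul_sq (by norm_num : (0 : ℝ) < 1 / 4)).const_mul (M / n))
    (Eventually.of_forall e2)).trans ?_
  rw [e3]
  have h5 : Real.sqrt (Real.pi / (1 / 4)) ≤ 4 := by
    rw [Real.sqrt_le_left (by norm_num)]
    have := Real.pi_le_four
    linarith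
  calc M / n * Real.sqrt (Real.pi / (1 / 4)) ≤ M / n * 4 :=
        mul_le_mul_of_nonneg_left h5 (by positivity)
    _ = 4 * M / n := by ring

end Pool.Agent.Y445.OJ
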